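import Pool.Agent.Y356.EA.Main
import Pool.Agent.Helper120.Ea.Model

/-!
# The (1+1) EA on minimum spanning trees needs `Ω(m² ln² m / ln ln m)` rounds

For ALL sufficiently large `m` there is an instance with exactly `m` edges on which the expected
runtime is at least `10⁻⁸ m² (ln m)² / ln ln m`. So the quotient of `T*(m)` and `m² ln m` tends to
infinity, at least as fast as a constant times `ln m / ln ln m`, along all `m`; in particular no
bound `C m² ln m` holds.

The construction (blocks of parallel bundles whose repair disturbs the next block) is that of the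
library `Pool/Agent/Helper120/Ea`, which shows that `T*(m) / (m² ln m)` is unbounded. New here: the
number of blocks grows with `m`, like `ln m / ln ln m`, and the number of edges is arbitrary.
-/

open scoped ENNReal

namespace Pool.Agent.Results.MP_8f38de_lc.LogSquaredLowerBound

open Pool.Agent.Helper120.EaModel

/-- (1) For every sufficiently large `m` there is an instance with exactly `m` edges on which the
expected runtime of the (1+1) EA is at least `10⁻⁸ m² (ln m)² / ln ln m`.
(2) For every `C` and every sufficiently large `m` there is an instance with exactly `m` edges on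
which the expected runtime is larger than `C m² ln m`. -/
theorem result :
    (∃ m0 : ℕ, ∀ m : ℕ, m0 ≤ m →
      ∃ (V E : Type) (_ : Fintype V) (_ : Fintype E) (_ : DecidableEq E) (G : WGraph V E)
        (x0 : Finset E), (G.subgraph Finset.univ).Connected ∧ G.IsSpanningTree x0 ∧
        Fintype.card E = m ∧
        ENNReal.ofReal (1 / 10 ^ 8 * (m : ℝ) ^ 2 * (Real.log m ^ 2 / Real.log (Real.log m))) ≤
          G.expectedRuntime x0) ∧
    (∀ C : ℝ, ∃ m0 : ℕ, ∀ m : ℕ, m0 ≤ m →
      ∃ (V E : Type) (_ : Fintype V) (_ : Fintype E) (_ : DecidableEq E) (G : WGraph V E)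
        (x0 : Finset E), (G.subgraph Finset.univ).Connected ∧ G.IsSpanningTree x0 ∧
        Fintype.card E = m ∧
        ENNReal.ofReal (C * (m : ℝ) ^ 2 * Real.log m) < G.expectedRuntime x0) := by
  obtain ⟨m0, hm0⟩ := Pool.Agent.Y356.EA.growth
  refine ⟨⟨m0, hm0⟩, fun C => ?_⟩
  -- `C ln m < 10⁻⁸ ln² m / ln ln m` for all large `m`
  have h1 : ∀ᶠ x : ℝ in Filter.atTop, 10 ^ 8 * (|C| + 1) * Real.log x ≤ x := by
    have h2 := Real.isLittleO_log_id_atTop.def (c := 1 / (10 ^ 8 * (|C| + 1))) (by positivity)
    filter_upwards [h2, Filter.eventually_ge_atTop (1 : ℝ)] with x hx hx1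
    rw [Real.norm_of_nonneg (Real.log_nonneg hx1), id, Real.norm_of_nonneg (by linarith)] at hx
    have h3 : (0 : ℝ) < 10 ^ 8 * (|C| + 1) := by positivity
    rw [one_div, ← div_eq_inv_mul, le_div_iff₀ h3] at hx
    linarith
  have h3 : Filter.Tendsto (fun m : ℕ => Real.log (m : ℝ)) Filter.atTop Filter.atTop :=
    Real.tendsto_log_atTop.comp tendsto_natCast_atTop_atTop
  obtain ⟨m1, hm1⟩ := Filter.eventually_atTop.1
    (((h3.eventually h1).and (h3.eventually (Filter.eventually_ge_atTop (3 : ℝ)))).and
      (Filter.eventually_ge_atTop 2))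
  refine ⟨max m0 m1, fun m hm => ?_⟩
  obtain ⟨⟨ha, hb⟩, hc⟩ := hm1 m (le_trans (le_max_right _ _) hm)
  obtain ⟨V, E, iV, iE, iD, G, x0, hG1, hG2, hG3, hG4⟩ := hm0 m (le_trans (le_max_left _ _) hm)
  refine ⟨V, E, iV, iE, iD, G, x0, hG1, hG2, hG3, lt_of_lt_of_le ?_ hG4⟩
  have hx0 : 0 < Real.log m := by linarith
  have hy0 : 0 < Real.log (Real.log m) := Real.log_pos (by linarith)
  have hmR : (0 : ℝ) < m := by
    have : 0 < m := by omega
    exact_mod_cast this
  have key : (|C| + 1) * Real.log m ≤
      1 / 10 ^ 8 * (Real.log m ^ 2 / Real.log (Real.log m)) := by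
    rw [← mul_div_assoc, le_div_iff₀ hy0]
    nlinarith
  have hlt : C * (m : ℝ) ^ 2 * Real.log m <
      1 / 10 ^ 8 * (m : ℝ) ^ 2 * (Real.log m ^ 2 / Real.log (Real.log m)) := by
    calc C * (m : ℝ) ^ 2 * Real.log m = (m : ℝ) ^ 2 * (C * Real.log m) := by ring
      _ < (m : ℝ) ^ 2 * ((|C| + 1) * Real.log m) := by
          refine mul_lt_mul_of_pos_left ?_ (by positivity)
          exact mul_lt_mul_of_pos_right (by linarith [le_abs_self C]) hx0
      _ ≤ (m : ℝ) ^ 2 * (1 / 10 ^ 8 * (Real.log m ^ 2 / Real.log (Real.log m))) :=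
          mul_le_mul_of_nonneg_left key (by positivity)
      _ = _ := by ring
  refine (ENNReal.ofReal_lt_ofReal_iff ?_).2 hlt
  positivity

end Pool.Agent.Results.MP_8f38de_lc.LogSquaredLowerBound
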